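import Pool.Agent.R619.TreeFG

/-!
# An algebra that is isotypic to a finitely generated algebra but not finitely generated

The signature has unary operations `t`, `c` and `s l`, where `l` runs over a countable set of
labels. The algebra `A` is a tree: `t` is the parent, `s l` is the child with label `l`; it is
generated by one node `a`, and the nodes `a, t a, t (t a), ...` are the nodes which have no label.
Since a formula involves only finitely many labels, and since over such a finite set of labels `a`
looks like a child of `t a` with another label, the subalgebra generated by `t a`, which is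
isomorphic to `A`, is an elementary substructure of `A`. The algebra `B` is the union of a chain
`A < A < A < ...` of such elementary extensions.
-/

set_option autoImplicit false

namespace Pool.Agent.Results.MP_74a3dd_lc.NotFinitelyGenerated

open FirstOrder FirstOrder.Language Pool.Agent.R619.Tree

/-- The finitely generated algebra. -/
abbrev A : Type := Nd ℕ Nat.succ (fun _ => true)

/-- The union of the chain. -/
abbrev B : Type := Nd ℤ (fun j => j + 1) (fun _ => true)

/-- The embedding of the `n`-th member of the chain. -/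
def emb (n : ℕ) : A ↪[L] B where
  toFun x := ⟨x.w, (x.j : ℤ) - n⟩
  inj' := by
    rintro ⟨w, j⟩ ⟨w', j'⟩ h
    simp only [Nd.mk.injEq, sub_left_inj, Nat.cast_inj] at h
    obtain ⟨rfl, rfl⟩ := h
    rfl
  map_fun' := by
    have hp : ∀ x : A, (⟨x.par.w, (x.par.j : ℤ) - n⟩ : B) = (⟨x.w, (x.j : ℤ) - n⟩ : B).par := by
      rintro ⟨w, j⟩
      by_cases hw : w = []
      · subst hw
        simp only [Nd.par, if_true]
        congr 1
        push_cast
        ring
      · simp [Nd.par, hw]
    intro k f x
    cases f with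
    | t => exact hp (x 0)
    | c =>
      change (⟨(x 0).cop.w, ((x 0).cop.j : ℤ) - n⟩ : B) = (⟨(x 0).w, ((x 0).j : ℤ) - n⟩ : B).cop
      have hc : (⟨(x 0).w, ((x 0).j : ℤ) - n⟩ : B).clr = (x 0).clr := rfl
      unfold Nd.cop
      rw [hc]
      by_cases h : (x 0).clr = true
      · rw [if_pos h, if_pos h]
      · rw [if_neg h, if_neg h]; exact hp (x 0)
    | s l => rfl
  map_rel' := fun r _ => r.elim

/-- The iterated shift. -/
def shI : ℕ → A → A
  | 0, x => x
  | n + 1, x => sh (fun _ => true) (shI n x)

theorem emb_shI (n k : ℕ) (x : A) : emb (n + k) (shI k x) = emb n x := by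
  induction k with
  | zero => rfl
  | succ k ih =>
    rw [← ih]
    change (⟨(shI k x).w, (((shI k x).j + 1 : ℕ) : ℤ) - ((n + (k + 1) : ℕ) : ℤ)⟩ : B) =
      ⟨(shI k x).w, ((shI k x).j : ℤ) - ((n + k : ℕ) : ℤ)⟩
    congr 1
    push_cast
    ring

/-- Tuples and formulas with bound variables: elementarity of the shift. -/
theorem sh_bdd {α : Type} {n : ℕ} (φ : L.BoundedFormula α n) (v : α → A) (xs : Fin n → A) :
    φ.Realize (sh (fun _ => true) ∘ v) (sh (fun _ => true) ∘ xs) ↔ φ.Realize v xs := by
  let f : A ↪ₑ[L] A := ⟨sh (fun _ => true), fun {n} φ x => sh_elementary (fun _ => true) φ x⟩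
  exact f.map_boundedFormula φ v xs

theorem shI_bdd (k : ℕ) {α : Type} {n : ℕ} (φ : L.BoundedFormula α n) (v : α → A)
    (xs : Fin n → A) : φ.Realize (shI k ∘ v) (shI k ∘ xs) ↔ φ.Realize v xs := by
  induction k with
  | zero => exact Iff.rfl
  | succ k ih =>
    rw [← ih, ← sh_bdd φ (shI k ∘ v)]
    exact Iff.rfl

theorem emb_bdd {α : Type} {n : ℕ} (φ : L.BoundedFormula α n) :
    ∀ (k : ℕ) (v : α → A) (xs : Fin n → A),
      φ.Realize (emb k ∘ v) (emb k ∘ xs) ↔ φ.Realize v xs := by
  induction φ with
  | falsum => intro k v xs; exact Iff.rfl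
  | equal t1 t2 =>
    intro k v xs
    simp only [BoundedFormula.Realize]
    have e : Sum.elim (emb k ∘ v) (emb k ∘ xs) = emb k ∘ (Sum.elim v xs) := by
      funext i; rcases i with i | i <;> rfl
    rw [e, HomClass.realize_term, HomClass.realize_term]
    exact (emb k).injective.eq_iff
  | rel R ts => exact R.elim
  | imp f g ih1 ih2 =>
    intro k v xs
    simp only [BoundedFormula.realize_imp]
    rw [ih1, ih2]
  | @all m f ih =>
    intro k v xs
    simp only [BoundedFormula.realize_all]
    constructor
    · intro h y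
      rw [← ih k v (Fin.snoc xs y), Fin.comp_snoc]
      exact h _
    · intro h y
      -- `y` lies in a later member of the chain
      obtain ⟨w, j⟩ := y
      obtain ⟨i, y', hy'⟩ : ∃ (i : ℕ) (y' : A), emb (k + i) y' = (⟨w, j⟩ : B) := by
        refine ⟨j.natAbs, ⟨w, (j + k + j.natAbs).toNat⟩, ?_⟩
        change (⟨w, (((j + k + j.natAbs).toNat : ℕ) : ℤ) - ((k + j.natAbs : ℕ) : ℤ)⟩ : B) = ⟨w, j⟩
        congr 1
        omega
      have h1 : (f.all).Realize (shI i ∘ v) (shI i ∘ xs) := by
        rw [shI_bdd]
        simp only [BoundedFormula.realize_all]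
        exact h
      simp only [BoundedFormula.realize_all] at h1
      have h2 := (ih (k + i) (shI i ∘ v) (Fin.snoc (shI i ∘ xs) y')).2 (h1 y')
      rw [Fin.comp_snoc, hy'] at h2
      have e1 : emb (k + i) ∘ (shI i ∘ v) = emb k ∘ v := by
        funext a; exact emb_shI k i (v a)
      have e2 : emb (k + i) ∘ (shI i ∘ xs) = emb k ∘ xs := by
        funext a; exact emb_shI k i (xs a)
      rwa [e1, e2] at h2

theorem emb_elem (k : ℕ) {n : ℕ} (φ : L.Formula (Fin n)) (a : Fin n → A) :
    φ.Realize (emb k ∘ a) ↔ φ.Realize a := by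
  have := emb_bdd φ k a default
  rwa [Subsingleton.elim (emb k ∘ (default : Fin 0 → A)) default] at this

/-- The nodes whose chain component is at least `-m`. -/
def up (m : ℕ) : L.Substructure B where
  carrier := {x | -(m : ℤ) ≤ x.j}
  fun_mem := by
    intro k f x hx
    have hp : ∀ y : B, -(m : ℤ) ≤ y.j → -(m : ℤ) ≤ y.par.j := by
      rintro ⟨w, j⟩ h
      by_cases hw : w = []
      · simp only [Nd.par, hw, if_true] at h ⊢
        omega
      · simpa [Nd.par, hw] using h
    cases f with
    | t => exact hp _ (hx 0)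
    | c =>
      change -(m : ℤ) ≤ ((x 0).cop).j
      unfold Nd.cop
      by_cases h : (x 0).clr = true
      · rw [if_pos h]; exact hx 0
      · rw [if_neg h]; exact hp _ (hx 0)
    | s l => exact hx 0

theorem not_fg : ¬ Structure.FG L B := by
  rw [Structure.fg_def, Substructure.fg_def]
  rintro ⟨S, hS, hcl⟩
  obtain ⟨m, hm⟩ : ∃ m : ℕ, ∀ x ∈ S, -(m : ℤ) ≤ x.j := by
    refine ⟨hS.toFinset.sup fun x => x.j.natAbs, fun x hx => ?_⟩
    have := Finset.le_sup (f := fun x : B => x.j.natAbs) (hS.mem_toFinset.2 hx)
    omega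
  have h1 : Substructure.closure L S ≤ up m := Substructure.closure_le.2 hm
  rw [hcl] at h1
  have h2 : (⟨[], -(m : ℤ) - 1⟩ : B) ∈ up m := h1 (Substructure.mem_top _)
  have h3 : -(m : ℤ) ≤ -(m : ℤ) - 1 := h2
  omega

/-- There are isotypic algebras `A` and `B` of the same signature (algebras of the variety of all
algebras of this signature) such that `A` is finitely generated and `B` is not. -/
theorem result : ∃ (L : FirstOrder.Language.{0, 0}) (_ : ∀ n, IsEmpty (L.Relations n))
    (A B : Type) (_ : L.Structure A) (_ : L.Structure B),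
    Isotypic L A B ∧ Structure.FG L A ∧ ¬ Structure.FG L B := by
  refine ⟨Pool.Agent.R619.Tree.L, fun n => inferInstance, A, B, inferInstance, inferInstance,
    ?_, nd_fg _, not_fg⟩
  intro n
  constructor
  · intro a
    exact ⟨emb 0 ∘ a, fun φ => (emb_elem 0 φ a).symm⟩
  · intro b
    obtain ⟨m, hm⟩ : ∃ m : ℕ, ∀ i, 0 ≤ (b i).j + m := by
      refine ⟨Finset.univ.sup fun i => (b i).j.natAbs, fun i => ?_⟩
      have := Finset.le_sup (f := fun i => (b i).j.natAbs) (Finset.mem_univ i)
      omega
    have hb : emb m ∘ (fun i => (⟨(b i).w, ((b i).j + m).toNat⟩ : A)) = b := by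
      funext i
      change (⟨(b i).w, ((((b i).j + m).toNat : ℕ) : ℤ) - m⟩ : B) = b i
      refine Nd.ext' rfl ?_
      have := hm i
      simp only
      omega
    refine ⟨fun i => ⟨(b i).w, ((b i).j + m).toNat⟩, fun φ => ?_⟩
    rw [← emb_elem m φ, hb]

end Pool.Agent.Results.MP_74a3dd_lc.NotFinitelyGenerated
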